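import Mathlib

set_option autoImplicit false

namespace Pool.Agent.H.MP_3c1a79_gt

/-- A relation on a ring that behaves like homotopy of invertible elements. -/
structure Good {A : Type*} [Ring A] (R : A → A → Prop) : Prop where
  refl : ∀ a, IsUnit a → R a a
  symm : ∀ {a b}, R a b → R b a
  trans : ∀ {a b c}, R a b → R b c → R a c
  mul : ∀ {a b c d}, R a b → R c d → R (a * c) (b * d)
  elem : ∀ n, n * n = 0 → R (1 + n) 1

variable {A : Type*} [Ring A] {R : A → A → Prop}

lemma unit_iff (m : A) :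
    IsUnit (1 + m) ↔ ∃ k, m + k + m * k = 0 ∧ m + k + k * m = 0 := by
  constructor
  · rintro ⟨u, hu⟩
    have h1 : (1 + m) * (u⁻¹ : Aˣ) = 1 := by rw [← hu]; exact u.mul_inv
    have h2 : ((u⁻¹ : Aˣ) : A) * (1 + m) = 1 := by rw [← hu]; exact u.inv_mul
    refine ⟨(u⁻¹ : Aˣ) - 1, ?_, ?_⟩
    · rw [← sub_eq_zero] at h1; rw [← h1]; noncomm_ring
    · rw [← sub_eq_zero] at h2; rw [← h2]; noncomm_ring
  · rintro ⟨k, h1, h2⟩
    refine ⟨⟨1 + m, 1 + k, ?_, ?_⟩, rfl⟩
    · rw [← sub_eq_zero, ← h1]; noncomm_ring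
    · rw [← sub_eq_zero, ← h2]; noncomm_ring

lemma unit_c {a a' m : A} (h : a' * a = 1) (hm : IsUnit (1 + m)) : IsUnit (1 + a * m * a') := by
  obtain ⟨k, h1, h2⟩ := (unit_iff m).1 hm
  refine (unit_iff _).2 ⟨a * k * a', ?_, ?_⟩
  · have : a * m * a' + a * k * a' + a * m * a' * (a * k * a') =
        a * (m + k + m * (a' * a) * k) * a' := by noncomm_ring
    rw [this, h, mul_one, h1]; simp
  · have : a * m * a' + a * k * a' + a * k * a' * (a * m * a') =
        a * (m + k + k * (a' * a) * m) * a' := by noncomm_ring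
    rw [this, h, mul_one, h2]; simp

lemma unit_nil {n : A} (h : n * n = 0) : IsUnit (1 + n) :=
  (unit_iff n).2 ⟨-n, by simp [h], by simp [h]⟩

lemma Good.left (G : Good R) {w x : A} (hw : R w 1) (hx : IsUnit x) : R (w * x) x := by
  simpa using G.mul hw (G.refl x hx)

lemma Good.right (G : Good R) {w x : A} (hw : R w 1) (hx : IsUnit x) : R (x * w) x := by
  simpa using G.mul (G.refl x hx) hw

lemma Good.rot (G : Good R) {a a' b b' q : A} (haa : a' * a = q) (hbb : b' * b = q)
    (hab : a' * b = 0) (hba : b' * a = 0) (h1 : a * q = a) (h2 : b * q = b) (h3 : q * a' = a')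
    (h4 : q * b' = b') : ∃ w, R w 1 ∧ IsUnit w ∧ w * a = b ∧ b' * w = a' := by
  have n1 : (b * a') * (b * a') = 0 := by rw [mul_assoc, ← mul_assoc a', hab]; simp
  have n2 : (-(a * b')) * (-(a * b')) = 0 := by
    rw [neg_mul_neg, mul_assoc, ← mul_assoc b', hba]; simp
  refine ⟨(1 + b * a') * (1 + -(a * b')) * (1 + b * a'), ?_,
    ((unit_nil n1).mul (unit_nil n2)).mul (unit_nil n1), ?_, ?_⟩
  · simpa using G.mul (G.mul (G.elem _ n1) (G.elem _ n2)) (G.elem _ n1)
  · have e1 : (1 + b * a') * a = a + b := by rw [add_mul, one_mul, mul_assoc, haa, h2]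
    have e2 : (1 + -(a * b')) * (a + b) = b := by
      rw [add_mul, one_mul, neg_mul, mul_assoc, mul_add, hba, hbb, zero_add, h1]; abel
    have e3 : (1 + b * a') * b = b := by rw [add_mul, one_mul, mul_assoc, hab]; simp
    rw [mul_assoc, mul_assoc, e1, e2, e3]
  · have e1 : b' * (1 + b * a') = a' + b' := by
      rw [mul_add, mul_one, ← mul_assoc, hbb, h3, add_comm]
    have e2 : (a' + b') * (1 + -(a * b')) = a' := by
      rw [mul_add, mul_one, mul_neg, ← mul_assoc, add_mul, hba, haa, add_zero, h4]; abel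
    have e3 : a' * (1 + b * a') = a' := by rw [mul_add, mul_one, ← mul_assoc, hab]; simp
    rw [← mul_assoc, ← mul_assoc, e1, e2, e3]

lemma Good.conj (G : Good R) {a a' b b' q m : A} (haa : a' * a = q) (hbb : b' * b = q)
    (hab : a' * b = 0) (hba : b' * a = 0) (h1 : a * q = a) (h2 : b * q = b) (h3 : q * a' = a')
    (h4 : q * b' = b') (ha : IsUnit (1 + a * m * a')) (hb : IsUnit (1 + b * m * b')) :
    R (1 + a * m * a') (1 + b * m * b') := by
  obtain ⟨w, hw, -, e1, e2⟩ := G.rot haa hbb hab hba h1 h2 h3 h4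
  have e : w * (1 + a * m * a') = (1 + b * m * b') * w := by
    rw [mul_add, add_mul, mul_one, one_mul, ← mul_assoc, ← mul_assoc, e1, mul_assoc (b * m), e2]
  exact G.trans (G.symm (G.left hw ha)) (e ▸ G.right hw hb)

lemma Good.conj1 (G : Good R) {a a' b b' m : A} (haa : a' * a = 1) (hbb : b' * b = 1)
    (hab : a' * b = 0) (hba : b' * a = 0) (hm : IsUnit (1 + m)) :
    R (1 + a * m * a') (1 + b * m * b') :=
  G.conj haa hbb hab hba (mul_one _) (mul_one _) (one_mul _) (one_mul _) (unit_c haa hm)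
    (unit_c hbb hm)

/-- An infinite repetition map. -/
structure Swindle (s s' r r' : A) (D : A → A) : Prop where
  ss : s' * s = 1
  rr : r' * r = 1
  sr : s' * r = 0
  rs : r' * s = 0
  fix : ∀ y, D y = s * y * s' + r * D y * r'
  mul : ∀ y z, D (y * z) = D y * D z
  add : ∀ y z, D (y + z) = D y + D z

lemma Good.corner (G : Good R) {s s' r r' : A} {D : A → A} (S : Swindle s s' r r' D)
    {a a' b b' m : A} (haa : a' * a = 1) (hbb : b' * b = 1) (hab : a' * b = 0) (hba : b' * a = 0)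
    (hm : IsUnit (1 + m)) : R (1 + a * m * a') 1 := by
  have D0 : D 0 = 0 := by simpa using S.add 0 0
  have hD : IsUnit (1 + D m) := by
    obtain ⟨k, h1, h2⟩ := (unit_iff m).1 hm
    exact (unit_iff _).2 ⟨D k, by rw [← S.mul, ← S.add, ← S.add, h1, D0],
      by rw [← S.mul, ← S.add, ← S.add, h2, D0]⟩
  have iso {t t' : A} (h : t' * t = 1) : t' * a' * (a * t) = 1 := by
    rw [mul_assoc, ← mul_assoc a', haa, one_mul, h]
  have o1 (t : A) : t * a' * b = 0 := by rw [mul_assoc, hab, mul_zero]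
  have o2 (t : A) : b' * (a * t) = 0 := by rw [← mul_assoc, hba, zero_mul]
  have c1 := G.conj1 haa hbb hab hba hD
  have c2 := G.conj1 (iso S.rr) hbb (o1 _) (o2 _) hD
  have c3 := G.conj1 haa hbb hab hba hm
  have c4 := G.conj1 (iso S.ss) hbb (o1 _) (o2 _) hm
  have e : 1 + a * D m * a' =
      (1 + a * s * m * (s' * a')) * (1 + a * r * D m * (r' * a')) := by
    have : (1 + a * s * m * (s' * a')) * (1 + a * r * D m * (r' * a')) =
        1 + a * (s * m * s' + r * D m * r') * a' +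
          a * s * m * (s' * (a' * a) * r) * D m * (r' * a') := by noncomm_ring
    rw [this, haa, mul_one, S.sr, ← S.fix]; simp
  obtain ⟨u, hu⟩ := unit_c (iso S.rr) hD
  have c5 := G.mul (G.trans c1 (G.symm c2)) (G.refl _ (u⁻¹).isUnit)
  rw [e, ← hu, mul_assoc, u.mul_inv, mul_one] at c5
  exact G.trans (G.trans c3 (G.symm c4)) c5

theorem Good.main (G : Good R) {s s' r r' : A} {D : A → A} (S : Swindle s s' r r' D)
    {x v v' w w' : A} (hx : IsUnit x) (hv : v' * v = 1) (hw : w' * w = 1) (hvw : v' * w = 0)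
    (hwv : w' * v = 0) (hxx : w' * x * v = 0) : R x 1 := by
  obtain ⟨u, rfl⟩ := hx
  have a1 : v' * (u⁻¹ : Aˣ) * (1 - w * w') * (u * v) = 1 := by
    have : v' * (u⁻¹ : Aˣ) * (1 - w * w') * (u * v) =
        v' * (((u⁻¹ : Aˣ) : A) * u) * v - v' * (u⁻¹ : Aˣ) * w * (w' * u * v) := by noncomm_ring
    rw [this, u.inv_mul, hxx, mul_one, hv]; simp
  have a2 : v' * (u⁻¹ : Aˣ) * (1 - w * w') * w = 0 := by
    rw [mul_assoc _ _ w, sub_mul, mul_assoc w, hw]; simp
  have a3 : w' * (u * v) = 0 := by rw [← mul_assoc, hxx]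
  obtain ⟨w1, r1, u1, e1, -⟩ := G.rot a1 hw a2 a3 (mul_one _) (mul_one _) (one_mul _) (one_mul _)
  obtain ⟨w2, r2, u2, e2, -⟩ := G.rot hw hv hwv hvw (mul_one _) (mul_one _) (one_mul _) (one_mul _)
  set z := w2 * (w1 * u) with hz
  have uz : IsUnit z := u2.mul (u1.mul u.isUnit)
  have rz : R z u := G.trans (G.left r2 (u1.mul u.isUnit)) (G.left r1 u.isUnit)
  have zv : z * v = v := by rw [hz, mul_assoc, mul_assoc, e1, e2]
  set q := 1 - v * v' with hq
  have qv : q * v = 0 := by rw [hq, sub_mul, mul_assoc, hv]; simp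
  have vq : v' * q = 0 := by rw [hq, mul_sub, ← mul_assoc, hv]; simp
  have qq : q * q = q := by
    conv_lhs => rw [hq, mul_sub, mul_one, ← mul_assoc, ← hq, qv]
    simp
  have nn : (-(v * v' * z * q)) * (-(v * v' * z * q)) = 0 := by
    rw [neg_mul_neg]
    have : v * v' * z * q * (v * v' * z * q) = v * v' * z * (q * v) * v' * z * q := by noncomm_ring
    rw [this, qv]; simp
  set m := q * (z - 1) * q with hm
  have e : z * (1 + -(v * v' * z * q)) = 1 + m := by
    have : z * (1 + -(v * v' * z * q)) = z - (z * v) * v' * z * q := by noncomm_ring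
    have h1 : m = q * z * q - q * q := by rw [hm]; noncomm_ring
    have h2 : z * q = z - v * v' := by rw [hq, mul_sub, ← mul_assoc, zv, mul_one]
    have h3 : q * z * q = z * q - v * v' * z * q := by rw [hq]; noncomm_ring
    rw [this, zv, h1, qq, h3, h2]
    nth_rewrite 3 [hq]
    abel
  have um : IsUnit (1 + m) := e ▸ uz.mul (unit_nil nn)
  have rm : R (1 + m) z := e ▸ G.right (G.elem _ nn) uz
  have qm : q * m * q = m := by
    rw [hm, ← mul_assoc, ← mul_assoc, qq, mul_assoc _ q q, qq]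
  have qm' : v * q * m * (q * v') = v * m * v' := by
    rw [← qm]; simp only [← mul_assoc]
    rw [mul_assoc v q q, qq, mul_assoc _ q q, qq]
  have c := G.conj (a := q) (a' := q) (b := v * q) (b' := q * v') (m := m) qq
    (by rw [mul_assoc, ← mul_assoc v', hv, one_mul, qq])
    (by rw [← mul_assoc, qv, zero_mul]) (by rw [mul_assoc, vq, mul_zero]) qq
    (by rw [mul_assoc, qq]) qq (by rw [← mul_assoc, qq]) (by rwa [qm])
    (by rw [qm']; exact unit_c hv um)
  rw [qm, qm'] at c
  exact G.trans (G.symm rz) (G.trans (G.symm rm) (G.trans c (G.corner S hv hw hvw hwv um)))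

end Pool.Agent.H.MP_3c1a79_gt
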