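import Mathlib
import Pool.Agent.H.MP_3c1a79_gt.Alg

set_option autoImplicit false

namespace Pool.Agent.H.MP_3c1a79_gt

open Filter Topology InnerProductSpace

variable {H : Type*} [NormedAddCommGroup H] [InnerProductSpace ℂ H] [CompleteSpace H]

omit [CompleteSpace H] in
lemma pyth {ι : Type*} (v : ι → H) (hv : ∀ i j, i ≠ j → inner ℂ (v i) (v j) = 0) (s : Finset ι) :
    ‖∑ i ∈ s, v i‖ ^ 2 = ∑ i ∈ s, ‖v i‖ ^ 2 := by
  rw [← inner_self_eq_norm_sq (𝕜 := ℂ), sum_inner, map_sum]
  refine Finset.sum_congr rfl fun i hi => ?_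
  rw [inner_sum, Finset.sum_eq_single i (fun j _ h => hv i j h.symm) (fun h => (h hi).elim),
    inner_self_eq_norm_sq]

lemma inner_star (a b : H →L[ℂ] H) (x y : H) :
    inner ℂ (a x) (b y) = inner ℂ x ((star a * b) y) := by
  rw [ContinuousLinearMap.star_eq_adjoint, mul_apply_eq_comp,
    ContinuousLinearMap.adjoint_inner_right]

lemma bessel {ι : Type*} (p : ι → H →L[ℂ] H) (hp : ∀ i, IsStarProjection (p i))
    (hpp : ∀ i j, i ≠ j → p i * p j = 0) (s : Finset ι) (x : H) :
    ∑ i ∈ s, ‖p i x‖ ^ 2 ≤ ‖x‖ ^ 2 := by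
  have hP : IsStarProjection (∑ i ∈ s, p i) := by
    refine ⟨?_, ?_⟩
    · rw [IsIdempotentElem, Finset.sum_mul_sum]
      refine Finset.sum_congr rfl fun i hi => ?_
      rw [Finset.sum_eq_single i (fun j _ h => hpp i j h.symm) (fun h => (h hi).elim)]
      exact (hp i).isIdempotentElem
    · rw [IsSelfAdjoint, star_sum]
      exact Finset.sum_congr rfl fun i _ => (hp i).isSelfAdjoint
  rw [← pyth (fun i => p i x) (fun i j h => by
    rw [inner_star, (hp i).isSelfAdjoint.star_eq, hpp i j h]; simp),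
    ← sum_apply]
  have := (∑ i ∈ s, p i).le_of_opNorm_le hP.norm_le x
  rw [one_mul] at this
  gcongr

/-- Strong summation of operators. -/
def SS {ι : Type*} (Q : ι → H →L[ℂ] H) (T : H →L[ℂ] H) : Prop :=
  ∀ x, HasSum (fun i => Q i x) (T x)

section
omit [CompleteSpace H]
variable {ι : Type*} {Q Q' : ι → H →L[ℂ] H} {T T' : H →L[ℂ] H}

lemma SS.eq (h : SS Q T) (h' : SS Q' T') (e : ∀ i, Q i = Q' i) : T = T' := by
  obtain rfl : Q = Q' := funext e
  ext x
  exact (h x).unique (h' x)

lemma SS.left (h : SS Q T) (a : H →L[ℂ] H) : SS (fun i => a * Q i) (a * T) :=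
  fun x => (h x).mapL a

lemma SS.right (h : SS Q T) (a : H →L[ℂ] H) : SS (fun i => Q i * a) (T * a) :=
  fun x => h (a x)

lemma SS.add (h : SS Q T) (h' : SS Q' T') : SS (fun i => Q i + Q' i) (T + T') :=
  fun x => (h x).add (h' x)

lemma SS.single (h : SS Q T) (j : ι) (e : ∀ i, i ≠ j → Q i = 0) : T = Q j := by
  ext x
  exact (h x).unique (hasSum_single j fun i hi => by simp [e i hi])

lemma SS.shift {Q : ℕ → H →L[ℂ] H} (h : SS (fun i => Q (i + 1)) T) : SS Q (Q 0 + T) := fun x => by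
  have := (hasSum_nat_add_iff (f := fun i => Q i x) 1).1 (h x)
  simpa [add_comm] using this

end

lemma glue {ι : Type*} (p Q : ι → H →L[ℂ] H) {C : ℝ} (h0 : 0 ≤ C)
    (hp : ∀ i, IsStarProjection (p i)) (hpp : ∀ i j, i ≠ j → p i * p j = 0)
    (hQ : ∀ i, Q i * p i = Q i) (hQQ : ∀ i j, i ≠ j → star (Q i) * Q j = 0)
    (hC : ∀ i, ‖Q i‖ ≤ C) :
    ∃ T : H →L[ℂ] H, ‖T‖ ≤ C ∧ SS Q T := by
  classical
  have py (x : H) (s : Finset ι) : ‖∑ i ∈ s, Q i x‖ ^ 2 = ∑ i ∈ s, ‖Q i x‖ ^ 2 :=
    pyth (fun i => Q i x) (fun i j h => by rw [inner_star, hQQ i j h]; simp) s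
  have bd (x : H) (s : Finset ι) : ∑ i ∈ s, ‖Q i x‖ ^ 2 ≤ (C * ‖x‖) ^ 2 := by
    calc ∑ i ∈ s, ‖Q i x‖ ^ 2 ≤ ∑ i ∈ s, C ^ 2 * ‖p i x‖ ^ 2 := by
          refine Finset.sum_le_sum fun i _ => ?_
          rw [← mul_pow, ← hQ i, mul_apply_eq_comp]
          have := (Q i).le_of_opNorm_le (hC i) (p i x)
          gcongr
      _ ≤ (C * ‖x‖) ^ 2 := by
          rw [← Finset.mul_sum, mul_pow]
          have := bessel p hp hpp s x
          gcongr
  have sm (x : H) : Summable fun i => Q i x := by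
    have h1 : Summable fun i => ‖Q i x‖ ^ 2 :=
      summable_of_sum_le (fun i => sq_nonneg _) (bd x)
    rw [summable_iff_vanishing_norm] at h1 ⊢
    intro e he
    obtain ⟨s, hs⟩ := h1 (e ^ 2) (by positivity)
    refine ⟨s, fun t ht => ?_⟩
    have := hs t ht
    rw [← py, Real.norm_of_nonneg (sq_nonneg _)] at this
    exact lt_of_pow_lt_pow_left₀ 2 he.le this
  let L : H →ₗ[ℂ] H :=
    { toFun := fun x => ∑' i, Q i x
      map_add' := fun x y => by simpa using (sm x).tsum_add (sm y)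
      map_smul' := fun c x => by simpa using (sm x).tsum_const_smul c }
  have hL (x : H) : ‖L x‖ ≤ C * ‖x‖ := by
    refine le_of_tendsto' (sm x).hasSum.norm fun s => ?_
    exact le_of_sq_le_sq (by rw [py]; exact bd x s) (by positivity)
  exact ⟨L.mkContinuous C hL, L.mkContinuous_norm_le h0 hL, fun x => (sm x).hasSum⟩

lemma pow_orth {A : Type*} [Ring A] [StarRing A] {s r : A} (hs : star s * s = 1)
    (hr : star r * r = 1) (hsr : star s * r = 0) (n m : ℕ) :
    star (r ^ n * s) * (r ^ m * s) = if n = m then 1 else 0 := by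
  have hrs : star r * s = 0 := by simpa using congrArg star hsr
  induction n generalizing m with
  | zero =>
    cases m with
    | zero => simpa using hs
    | succ m => simp [pow_succ', ← mul_assoc, hsr]
  | succ n ih =>
    cases m with
    | zero => simp [pow_succ', mul_assoc, hrs]
    | succ m =>
      have := ih m
      rw [pow_succ', pow_succ', mul_assoc r, mul_assoc r, star_mul, mul_assoc, ← mul_assoc (star r),
        hr, one_mul, this]
      simp

lemma norm_iso {s : H →L[ℂ] H} (hs : star s * s = 1) : ‖s‖ ≤ 1 := by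
  refine s.opNorm_le_bound zero_le_one fun x => ?_
  have : ‖s x‖ ^ 2 = ‖x‖ ^ 2 := by
    rw [← inner_self_eq_norm_sq (𝕜 := ℂ), inner_star, hs, ← inner_self_eq_norm_sq (𝕜 := ℂ)]; rfl
  rw [one_mul]
  exact le_of_sq_le_sq this.le (norm_nonneg _)

lemma swindle {s r : H →L[ℂ] H} (hs : star s * s = 1) (hr : star r * r = 1)
    (hsr : star s * r = 0) : ∃ D : (H →L[ℂ] H) → H →L[ℂ] H, Swindle s (star s) r (star r) D ∧
      Continuous D ∧ ∀ u : H →L[ℂ] H, Commute u s → Commute u r →
        ∀ y, D (u * y * star u) = u * D y * star u := by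
  have hrs : star r * s = 0 := by simpa using congrArg star hsr
  obtain ⟨S, hS⟩ : ∃ S : ℕ → H →L[ℂ] H, ∀ n, S n = r ^ n * s := ⟨_, fun _ => rfl⟩
  have o (n m : ℕ) : star (S n) * S m = if n = m then 1 else 0 := by
    rw [hS, hS]; exact pow_orth hs hr hsr n m
  have o1 (n : ℕ) : star (S n) * S n = 1 := by simp [o]
  have o2 (n m : ℕ) (h : n ≠ m) : star (S n) * S m = 0 := by simp [o, h]
  have ex (y : H →L[ℂ] H) := glue (fun n => S n * star (S n)) (fun n => S n * y * star (S n))
    (norm_nonneg y)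
    (fun n => ⟨by rw [IsIdempotentElem, mul_assoc, ← mul_assoc (star _), o1, one_mul],
      by simp [IsSelfAdjoint]⟩)
    (fun n m h => by rw [mul_assoc, ← mul_assoc (star _), o2 n m h]; simp)
    (fun n => by rw [mul_assoc, ← mul_assoc (star _), o1, one_mul])
    (fun n m h => by
      rw [star_mul, star_mul, mul_assoc, mul_assoc, mul_assoc, ← mul_assoc (star (S n)), o2 n m h]
      simp)
    (fun n => by
      have h1 := norm_iso (o1 n)
      have h2 : ‖star (S n)‖ ≤ 1 := by rwa [norm_star]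
      calc _ ≤ ‖S n‖ * ‖y‖ * ‖star (S n)‖ := (norm_mul_le _ _).trans (by
              gcongr; exact norm_mul_le _ _)
        _ ≤ 1 * ‖y‖ * 1 := by gcongr
        _ = ‖y‖ := by ring)
  choose D hn hD using ex
  have add (y z) : D (y + z) = D y + D z :=
    (hD _).eq ((hD y).add (hD z)) fun n => by rw [mul_add, add_mul]
  have col (y) (m : ℕ) : D y * S m = S m * y := by
    rw [((hD y).right (S m)).single m fun n h => by rw [mul_assoc, o2 n m h, mul_zero], mul_assoc,
      o1, mul_one]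
  refine ⟨D, ⟨hs, hr, hsr, hrs, fun y => ?_, fun y z => ?_, add⟩, ?_, fun u h1 h2 y => ?_⟩
  · have h : SS (fun n => S (n + 1) * y * star (S (n + 1))) (r * D y * star r) := by
      convert ((hD y).left r).right (star r) using 2 with n
      simp [hS, pow_succ', mul_assoc]
    simpa [hS] using (hD y).eq (SS.shift (Q := fun n => S n * y * star (S n)) h) fun _ => rfl
  · exact (hD _).eq ((hD z).left (D y)) fun n => by
      rw [← mul_assoc, ← mul_assoc, ← mul_assoc, col]
  · refine (LipschitzWith.of_dist_le_mul (K := 1) fun y z => ?_).continuous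
    have : D y - D z = D (y - z) := by rw [sub_eq_iff_eq_add, ← add, sub_add_cancel]
    simpa [dist_eq_norm, this] using hn (y - z)
  · refine (hD _).eq (((hD y).left u).right (star u)) fun n => ?_
    have c1 : Commute u (S n) := hS n ▸ (h2.pow_right n).mul_right h1
    have c3 : Commute (star u) (star (S n)) := c1.star_star
    rw [← mul_assoc, ← mul_assoc, ← c1.eq, mul_assoc _ (star u), c3.eq]
    simp only [mul_assoc]

end Pool.Agent.H.MP_3c1a79_gt
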