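import Mathlib
import Pool.Agent.H.MP_3c1a79_gt.Sum

set_option autoImplicit false

namespace Pool.Agent.H.MP_3c1a79_gt

open Filter Topology InnerProductSpace

variable {H : Type*} [NormedAddCommGroup H] [InnerProductSpace ℂ H] [CompleteSpace H]

lemma lin_alg {ι : Type*} [Fintype ι] {N : ℕ} (h : Fintype.card ι < N) (w : ι → Fin N → ℂ) :
    ∃ c : Fin N → ℂ, ∑ n, star (c n) * c n = 1 ∧ ∀ i, ∑ n, c n * w i n = 0 := by
  obtain ⟨c, hc, c0⟩ := (Submodule.ne_bot_iff _).1 (LinearMap.ker_ne_bot_of_finrank_lt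
    (f := Matrix.mulVecLin (Matrix.of w)) (by simpa using h))
  let x : EuclideanSpace ℂ (Fin N) := WithLp.toLp 2 c
  have x0 : ‖x‖ ≠ 0 := by simpa [x] using c0
  have e : ∑ n, star (c n) * c n = (‖x‖ : ℂ) ^ 2 := by
    refine Eq.trans ?_ (inner_self_eq_norm_sq_to_K (𝕜 := ℂ) x)
    rw [PiLp.inner_apply]
    simp only [x, RCLike.inner_apply, mul_comm]
    rfl
  refine ⟨fun n => (‖x‖ : ℂ)⁻¹ * c n, ?_, fun i => ?_⟩
  · have : ∀ n, star ((‖x‖ : ℂ)⁻¹ * c n) * ((‖x‖ : ℂ)⁻¹ * c n) =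
        ((‖x‖ : ℂ) ^ 2)⁻¹ * (star (c n) * c n) := fun n => by
      simp only [star_mul', star_inv₀, Complex.star_def, Complex.conj_ofReal]; ring
    simp only [this]
    rw [← Finset.mul_sum, e, inv_mul_cancel₀ (by simpa using x0)]
  · have := congrFun (LinearMap.mem_ker.1 hc) i
    simp only [mul_assoc, ← Finset.mul_sum]
    simp only [Matrix.mulVecLin_apply, Matrix.mulVec, dotProduct, Matrix.of_apply,
      Pi.zero_apply] at this
    simp [mul_comm, this]

/-- Isometries with orthogonal ranges and a total family of orthogonal finite rank projections,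
all commuting with a given set of operators. -/
structure Frame (Γ : Set (H →L[ℂ] H)) where
  S : ℕ → H →L[ℂ] H
  P : ℕ → H →L[ℂ] H
  d : ℕ → ℕ
  b : (k : ℕ) → Fin (d k) → H
  hS : ∀ n m, star (S n) * S m = if n = m then 1 else 0
  cS : ∀ g ∈ Γ, ∀ n, Commute g (S n)
  hP : ∀ k, IsStarProjection (P k)
  oP : ∀ i j, i ≠ j → P i * P j = 0
  cP : ∀ g ∈ Γ, ∀ n, Commute g (P n)
  tot : ∀ a, (∀ l, a * P l = 0) → a = 0
  hb : ∀ j k (a : H →L[ℂ] H), (∀ i' i, inner ℂ (b j i') (a (b k i)) = 0) → P j * a * P k = 0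

namespace Frame

variable {Γ : Set (H →L[ℂ] H)} (F : Frame Γ)

def N (m : ℕ) : ℕ := m * (∑ j : Fin m, F.d j + 1)

lemma N_mono : Monotone F.N := fun a b h => by
  refine Nat.mul_le_mul h (Nat.add_le_add_right ?_ 1)
  rw [Fin.sum_univ_eq_sum_range, Fin.sum_univ_eq_sum_range]
  exact Finset.sum_le_sum_of_subset (Finset.range_mono h)

def Thin (T : H →L[ℂ] H) : Prop :=
  ∀ j n k, n < F.N j → k < F.N j → F.P k * (star (F.S n) * T) * F.P j = 0

lemma ext2 (a : H →L[ℂ] H) (h : ∀ k l, F.P k * a * F.P l = 0) : a = 0 := by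
  rw [← star_eq_zero]
  refine F.tot _ fun l => ?_
  rw [← star_eq_zero, star_mul, star_star, (F.hP l).isSelfAdjoint.star_eq]
  exact F.tot _ (h l)

lemma central {v w : H →L[ℂ] H} (hv : v ∈ Submodule.span ℂ (Set.range F.S))
    (hw : w ∈ Submodule.span ℂ (Set.range F.S)) (a : H →L[ℂ] H) : Commute a (star v * w) := by
  induction hv using Submodule.span_induction with
  | mem v hv =>
    induction hw using Submodule.span_induction with
    | mem w hw =>
      obtain ⟨n, rfl⟩ := hv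
      obtain ⟨m, rfl⟩ := hw
      rw [F.hS]; split_ifs <;> simp
    | zero => simp
    | add _ _ _ _ h1 h2 => rw [mul_add]; exact h1.add_right h2
    | smul c _ _ h1 => rw [mul_smul_comm]; exact h1.smul_right c
  | zero => simp
  | add _ _ _ _ h1 h2 => rw [star_add, add_mul]; exact h1.add_right h2
  | smul c _ _ h1 => rw [star_smul, smul_mul_assoc]; exact h1.smul_right _

lemma comm {v g : H →L[ℂ] H} (hv : v ∈ Submodule.span ℂ (Set.range F.S)) (hg : g ∈ Γ) :
    Commute g v := by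
  induction hv using Submodule.span_induction with
  | mem v hv => obtain ⟨n, rfl⟩ := hv; exact F.cS g hg n
  | zero => simp
  | add _ _ _ _ h1 h2 => exact h1.add_right h2
  | smul c _ _ h1 => exact h1.smul_right _

lemma piece (𝒯 Z : Finset (H →L[ℂ] H)) (hT : ∀ T ∈ 𝒯, F.Thin T) (k : ℕ) :
    ∃ v ∈ Submodule.span ℂ (Set.range F.S), star v * v = 1 ∧
      (∀ T ∈ 𝒯, ∀ j, F.P k * (star v * T) * F.P j = 0) ∧
      ∀ z ∈ Z, ∀ n l, n < F.N k → l < F.N k → F.P l * (star (F.S n) * (z * v)) * F.P k = 0 := by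
  let ι₂ := Z × Fin (F.d k) × Fin (F.N k) × Σ l : Fin (F.N k), Fin (F.d l)
  let m := Fintype.card ι₂ + 𝒯.card * F.d k + k + 1
  let ι₁ := 𝒯 × Fin (F.d k) × Σ j : Fin m, Fin (F.d j)
  have hc : Fintype.card (ι₁ ⊕ ι₂) < F.N m := by
    have : Fintype.card ι₁ = 𝒯.card * F.d k * ∑ j : Fin m, F.d j := by
      simp [ι₁, mul_assoc]
    rw [Fintype.card_sum, this]
    change _ < m * (_ + 1)
    rw [mul_add, mul_one]
    exact add_lt_add_of_le_of_lt (Nat.mul_le_mul_right _ (by omega)) (by omega)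
  obtain ⟨c, c1, c2⟩ := lin_alg hc (Sum.elim
    (fun i n => inner ℂ (F.b i.2.2.1 i.2.2.2) ((star i.1.1 * F.S n) (F.b k i.2.1)))
    (fun i n => inner ℂ (F.b i.2.2.2.1 i.2.2.2.2)
      ((star (F.S i.2.2.1) * (i.1.1 * F.S n)) (F.b k i.2.1))))
  refine ⟨∑ n, c n • F.S n, Submodule.sum_mem _ fun n _ => Submodule.smul_mem _ _
    (Submodule.subset_span ⟨_, rfl⟩), ?_, fun T hT' j => ?_, fun z hz n l hn hl => ?_⟩
  · simp only [star_sum, star_smul, Finset.sum_mul, Finset.mul_sum, smul_mul_assoc, mul_smul_comm,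
      F.hS, Fin.val_inj, smul_ite, smul_zero, Finset.sum_ite_eq', Finset.mem_univ, if_true,
      smul_smul, ← Finset.sum_smul]
    simp only [mul_comm (c _), c1, one_smul]
  · by_cases hj : j < m
    · rw [← star_eq_zero, star_mul, star_mul, star_mul, star_star, (F.hP k).isSelfAdjoint.star_eq,
        (F.hP j).isSelfAdjoint.star_eq, ← mul_assoc]
      refine F.hb _ _ _ fun i' i => ?_
      simpa [Finset.mul_sum, inner_sum, inner_smul_right] using
        c2 (Sum.inl ⟨⟨T, hT'⟩, i, ⟨j, hj⟩, i'⟩)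
    · simp only [star_sum, star_smul, Finset.sum_mul, Finset.mul_sum, smul_mul_assoc, mul_smul_comm]
      refine Finset.sum_eq_zero fun n _ => ?_
      have h1 := F.N_mono (not_lt.1 hj)
      have h2 : m ≤ F.N m := Nat.le_mul_of_pos_right _ (by omega)
      rw [hT T hT' j n k (n.2.trans_le h1) (by omega), smul_zero]
  · refine F.hb _ _ _ fun i' i => ?_
    simpa [Finset.mul_sum, inner_sum, inner_smul_right] using
      c2 (Sum.inr ⟨⟨z, hz⟩, i, ⟨n, hn⟩, ⟨l, hl⟩, i'⟩)

lemma thin (𝒯 Z : Finset (H →L[ℂ] H)) (hT : ∀ T ∈ 𝒯, F.Thin T) :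
    ∃ V : H →L[ℂ] H, (star V * V = 1 ∧ (∀ g ∈ Γ, Commute g V) ∧ ∀ z ∈ Z, F.Thin (z * V)) ∧
      ∀ T ∈ 𝒯, star V * T = 0 := by
  choose v v1 v2 v3 v4 using F.piece 𝒯 Z hT
  have sa (k) : star (F.P k) = F.P k := (F.hP k).isSelfAdjoint.star_eq
  have id (k) : F.P k * F.P k = F.P k := (F.hP k).isIdempotentElem
  have o (k l) (h : k ≠ l) : star (v k * F.P k) * (v l * F.P l) = 0 := by
    rw [star_mul, sa, mul_assoc, ← mul_assoc (star _), ← (F.central (v1 k) (v1 l) _).eq,
      ← mul_assoc, F.oP k l h, zero_mul]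
  obtain ⟨V, -, hV⟩ := glue F.P (fun k => v k * F.P k) zero_le_one F.hP F.oP
    (fun k => by rw [mul_assoc, id]) o fun k => (norm_mul_le _ _).trans
      (mul_le_one₀ (norm_iso (v2 k)) (norm_nonneg _) ((F.hP k).norm_le _))
  have col (l) : V * F.P l = v l * F.P l := by
    rw [(hV.right (F.P l)).single l fun k h => by rw [mul_assoc, F.oP k l h, mul_zero], mul_assoc,
      id]
  have row (l) : F.P l * star V = F.P l * star (v l) := by
    simpa [sa] using congrArg star (col l)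
  refine ⟨V, ⟨?_, fun g hg => ?_, fun z hz j n k hn hk => ?_⟩, fun T hT' => ?_⟩
  · rw [← sub_eq_zero]
    refine F.ext2 _ fun k l => ?_
    rw [mul_sub, sub_mul, ← mul_assoc, row, mul_assoc _ V, col, mul_one]
    by_cases h : k = l
    · rw [h, mul_assoc, ← mul_assoc (star _), v2, one_mul, sub_self]
    · have := o k l h
      rw [star_mul, sa] at this
      rw [this, F.oP k l h, sub_self]
  · rw [Commute, SemiconjBy, ← sub_eq_zero]
    refine F.tot _ fun l => ?_
    rw [sub_mul, mul_assoc, mul_assoc, (F.cP g hg l).eq, ← mul_assoc V, col,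
      ((F.comm (v1 l) hg).mul_right (F.cP g hg l)).eq, sub_self]
  · have := v4 j z hz n k hn hk
    simp only [mul_assoc] at this ⊢
    rwa [col]
  · refine F.ext2 _ fun k l => ?_
    rw [← mul_assoc, row, mul_assoc _ _ T, v3 k T hT' l]

end Frame

lemma rec_choice {J B : Type*} (r : J → J → Prop) (hr : WellFounded r) (P : J → B → Prop)
    (Q : J → B → J → B → Prop)
    (step : ∀ a (f : ∀ b, r b a → B), (∀ b h, P b (f b h)) →
      ∃ v, P a v ∧ ∀ b h, Q a v b (f b h)) :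
    ∃ V : J → B, (∀ a, P a (V a)) ∧ ∀ a b, r b a → Q a (V a) b (V b) := by
  choose g g1 g2 using step
  let V : ∀ a, {v // P a v} := hr.fix fun a f =>
    ⟨g a (fun b h => (f b h).1) fun b h => (f b h).2, g1 _ _ _⟩
  refine ⟨fun a => (V a).1, fun a => (V a).2, fun a b h => ?_⟩
  have : V a = ⟨g a (fun b _ => (V b).1) fun b _ => (V b).2, g1 _ _ _⟩ := hr.fix_eq _ a
  simp only [this]
  exact g2 a (fun b _ => (V b).1) _ b h

lemma rk_total {I : Type*} (a b : Finset I × Bool) (hab : a ≠ b) (h : a.1 ⊆ b.1 ∨ b.1 ⊆ a.1) :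
    (a.1 ⊆ b.1 ∧ 2 * a.1.card + a.2.toNat < 2 * b.1.card + b.2.toNat) ∨
      (b.1 ⊆ a.1 ∧ 2 * b.1.card + b.2.toNat < 2 * a.1.card + a.2.toNat) := by
  obtain ⟨σ, x⟩ := a
  obtain ⟨τ, y⟩ := b
  have hx := Bool.toNat_le x
  have hy := Bool.toNat_le y
  by_cases e : σ = τ
  · subst e
    cases x <;> cases y <;> simp at hab ⊢
  · rcases h with h | h
    · have : σ.card < τ.card := Finset.card_lt_card (h.ssubset_of_ne e)
      exact Or.inl ⟨h, by dsimp only; omega⟩
    · have : τ.card < σ.card := Finset.card_lt_card (h.ssubset_of_ne (Ne.symm e))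
      exact Or.inr ⟨h, by dsimp only; omega⟩

/-- A coherent family of invariant isometries, indexed by finite sets. -/
lemma Frame.family {Γ : Set (H →L[ℂ] H)} (F : Frame Γ) {I : Type*} (u : I → H →L[ℂ] H) :
    ∃ V : Finset I × Bool → H →L[ℂ] H, (∀ a, star (V a) * V a = 1) ∧
      (∀ a, ∀ g ∈ Γ, Commute g (V a)) ∧ ∀ a b, a ≠ b → a.1 ⊆ b.1 ∨ b.1 ⊆ a.1 →
        star (V a) * V b = 0 ∧ ∀ i ∈ a.1, i ∈ b.1 → star (V a) * u i * V b = 0 := by
  classical
  let rk : Finset I × Bool → ℕ := fun a => 2 * a.1.card + a.2.toNat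
  let r : Finset I × Bool → Finset I × Bool → Prop := fun b a => b.1 ⊆ a.1 ∧ rk b < rk a
  let Z : Finset I → Finset (H →L[ℂ] H) := fun σ =>
    insert 1 (σ.image u ∪ σ.image fun i => star (u i))
  obtain ⟨V, h1, h2⟩ := rec_choice r (Subrelation.wf (fun h => h.2) (measure rk).wf)
    (fun a V => star V * V = 1 ∧ (∀ g ∈ Γ, Commute g V) ∧ ∀ z ∈ Z a.1, F.Thin (z * V))
    (fun _ V b W => ∀ z ∈ Z b.1, star V * (z * W) = 0) fun a f hf => by
      let p : Finset (Finset I × Bool) := (a.1.powerset ×ˢ Finset.univ).filter (r · a)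
      have hp (b) : b ∈ p ↔ r b a := by
        simp only [p, Finset.mem_filter, Finset.mem_product, Finset.mem_powerset, Finset.mem_univ,
          and_true, and_iff_right_iff_imp]
        exact fun h => h.1
      obtain ⟨V, hV, hV'⟩ := F.thin (p.attach.biUnion fun b =>
        (Z b.1.1).image (· * f b.1 ((hp _).1 b.2))) (Z a.1) (fun T hT => by
          simp only [Finset.mem_biUnion, Finset.mem_image] at hT
          obtain ⟨b, -, z, hz, rfl⟩ := hT
          exact (hf _ _).2.2 z hz)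
      refine ⟨V, hV, fun b h z hz => hV' _ ?_⟩
      simp only [Finset.mem_biUnion, Finset.mem_image]
      exact ⟨⟨b, (hp b).2 h⟩, Finset.mem_attach _ _, z, hz, rfl⟩
  refine ⟨V, fun a => (h1 a).1, fun a => (h1 a).2.1, fun a b hab h => ?_⟩
  have key : r a b ∨ r b a := rk_total a b hab h
  rcases key with k | k
  · refine ⟨?_, fun i hi _ => ?_⟩
    · simpa using congrArg star (h2 b a k 1 (by simp [Z]))
    · simpa using congrArg star (h2 b a k (star (u i)) (by
        simp only [Z, Finset.mem_insert, Finset.mem_union, Finset.mem_image]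
        exact Or.inr (Or.inr ⟨i, hi, rfl⟩)))
  · refine ⟨by simpa using h2 a b k 1 (by simp [Z]), fun i _ hi => ?_⟩
    rw [mul_assoc]
    exact h2 a b k (u i) (by
      simp only [Z, Finset.mem_insert, Finset.mem_union, Finset.mem_image]
      exact Or.inr (Or.inl ⟨i, hi, rfl⟩))

end Pool.Agent.H.MP_3c1a79_gt
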