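import Mathlib
import Pool.Agent.H.MP_3c1a79_gt.Thin

set_option autoImplicit false

namespace Pool.Agent.H.MP_3c1a79_gt

open Filter Topology InnerProductSpace MeasureTheory

variable {H : Type*} [NormedAddCommGroup H] [InnerProductSpace ℂ H] [CompleteSpace H]
  {G : Type*} [Group G] [TopologicalSpace G] [IsTopologicalGroup G] [CompactSpace G]

lemma peter_weyl (l : G →* H →L[ℂ] H) (hs : ∀ g, star (l g) = l g⁻¹)
    (hc : ∀ v, Continuous fun x => l x v) (w : H)
    (h : ∀ F : Submodule ℂ H, FiniteDimensional ℂ F → (∀ g, ∀ u ∈ F, l g u ∈ F) →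
      ∀ u ∈ F, inner ℂ u w = 0) : w = 0 := by
  borelize G
  let μ : Measure G := Measure.haarMeasure ⊤
  have : IsProbabilityMeasure μ := ⟨Measure.haarMeasure_self⟩
  have hs' (x u v) : inner ℂ (l x u) v = inner ℂ u (l x⁻¹ v) := by
    rw [← hs, ContinuousLinearMap.star_eq_adjoint, ContinuousLinearMap.adjoint_inner_right]
  have c1 : Continuous fun x => rankOne ℂ (l x w) (l x w) :=
    ((ContinuousLinearMap.smulRightL ℂ H H).continuous.comp
      ((innerSL ℂ).continuous.comp (hc w))).clm_apply (hc w)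
  have i1 := c1.integrable_of_hasCompactSupport (μ := μ) (HasCompactSupport.of_compactSpace _)
  let T := ∫ x, rankOne ℂ (l x w) (l x w) ∂μ
  have i2 (u) : Integrable (fun x => inner ℂ (l x w) u • l x w) μ := i1.apply_continuousLinearMap u
  have t0 (u) : T u = ∫ x, inner ℂ (l x w) u • l x w ∂μ := ContinuousLinearMap.integral_apply i1 u
  have t1 : IsCompactOperator T := Convex.integral_mem
    ((compactOperator (RingHom.id ℂ) H H).restrictScalars ℝ).convex
    isClosed_setOfPred_isCompactOperator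
    (Eventually.of_forall fun x => (isCompactOperator_of_locallyCompactSpace_dom
      (innerSL ℂ (l x w))).clm_comp (.toSpanSingleton ℂ (l x w))) i1
  have t2 (a b) : inner ℂ a (T b) = ∫ x, inner ℂ (l x w) b * inner ℂ a (l x w) ∂μ := by
    rw [t0, ← integral_inner (i2 b)]
    simp [inner_smul_right]
  have t3 : T.IsSymmetric := fun a b => by
    change inner ℂ (T a) b = inner ℂ a (T b)
    rw [← inner_conj_symm, t2, t2, ← integral_conj]
    simp [mul_comm]
  have t4 (y u) : T (l y u) = l y (T u) := by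
    rw [t0, t0, ← (l y).integral_comp_comm (i2 u), ← integral_mul_left_eq_self _ y]
    have e (v) : l y⁻¹ (l y v) = v := by
      rw [← mul_apply_eq_comp, ← map_mul, inv_mul_cancel, map_one, one_apply_eq_self]
    simp [hs' y, e]
  have t5 : T w ∈ (⨆ m, Module.End.eigenspace (T : Module.End ℂ H) m)ᗮ := by
    rw [← Submodule.iInf_orthogonal, Submodule.mem_iInf]
    intro m u hu
    erw [← t3, Module.End.mem_eigenspace_iff.1 hu, inner_smul_left]
    by_cases e : m = 0
    · simp [e]
    rw [h _ (T.finite_dimensional_eigenspace t1 m e) (fun x u hu => ?_) u hu, mul_zero]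
    rw [Module.End.mem_eigenspace_iff] at hu ⊢
    erw [t4, hu, map_smul]
  rw [T.orthogonalComplement_iSup_eigenspaces_eq_bot t1 t3, Submodule.mem_bot] at t5
  by_contra hw
  have c2 : Continuous fun x => ‖inner ℂ (l x w) w‖ ^ 2 :=
    ((hc w).inner continuous_const).norm.pow 2
  refine (c2.integral_pos_of_hasCompactSupport_nonneg_nonzero (μ := μ) (x := 1)
    (HasCompactSupport.of_compactSpace _) (fun _ => sq_nonneg _) ?_).ne' ?_
  · simpa using hw
  · have := t2 w w
    rw [t5, inner_zero_right] at this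
    rw [← Complex.ofReal_inj, ← integral_complex_ofReal, Complex.ofReal_zero, this]
    congr with x
    rw [← inner_conj_symm w, Complex.mul_conj']
    simp

lemma frame [SecondCountableTopology H] (l : G →* H →L[ℂ] H) (hs : ∀ g, star (l g) = l g⁻¹)
    (hc : ∀ v, Continuous fun x => l x v) {s r : H →L[ℂ] H} (h1 : star s * s = 1)
    (h2 : star r * r = 1) (h3 : star s * r = 0) (cs : ∀ g, Commute (l g) s)
    (cr : ∀ g, Commute (l g) r) : Nonempty (Frame (Set.range l)) := by
  let D : Submodule ℂ H :=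
    { carrier := {x | ∃ F : Submodule ℂ H, FiniteDimensional ℂ F ∧ (∀ g, ∀ u ∈ F, l g u ∈ F) ∧ x ∈ F}
      add_mem' := by
        rintro a b ⟨F, f1, f2, f3⟩ ⟨K, k1, k2, k3⟩
        refine ⟨F ⊔ K, inferInstance, fun g u hu => ?_, Submodule.add_mem_sup f3 k3⟩
        obtain ⟨y, hy, z, hz, rfl⟩ := Submodule.mem_sup.1 hu
        rw [map_add]
        exact Submodule.add_mem_sup (f2 g y hy) (k2 g z hz)
      zero_mem' := ⟨⊥, inferInstance, by simp, by simp⟩
      smul_mem' := by
        rintro c a ⟨F, f1, f2, f3⟩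
        exact ⟨F, f1, f2, F.smul_mem c f3⟩ }
  have hD : Dense (D : Set H) := by
    rw [Submodule.dense_iff_topologicalClosure_eq_top, Submodule.topologicalClosure_eq_top_iff,
      Submodule.eq_bot_iff]
    exact fun w hw => peter_weyl l hs hc w fun F f1 f2 u hu => hw u ⟨F, f1, f2, hu⟩
  obtain ⟨ξ, hξ⟩ := TopologicalSpace.exists_dense_seq D
  have hξ' : DenseRange fun n => (ξ n : H) :=
    hD.denseRange_val.comp hξ continuous_subtype_val
  choose K k1 k2 k3 using fun n => (ξ n).2
  obtain ⟨F, F0, Fs⟩ : ∃ F : ℕ → Submodule ℂ H, F 0 = ⊥ ∧ ∀ n, F (n + 1) = F n ⊔ K n :=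
    ⟨fun m => Nat.rec ⊥ (fun n A => A ⊔ K n) m, rfl, fun _ => rfl⟩
  have fd : ∀ n : ℕ, FiniteDimensional ℂ (F n : Submodule ℂ H) := by
    intro n
    induction n with
    | zero => rw [F0]; infer_instance
    | succ n ih => rw [Fs]; infer_instance
  have inv (n) (g) : ∀ u ∈ F n, l g u ∈ F n := by
    induction n with
    | zero => simp [F0]
    | succ n ih =>
      intro u hu
      rw [Fs] at hu ⊢
      obtain ⟨y, hy, z, hz, rfl⟩ := Submodule.mem_sup.1 hu
      rw [map_add]
      exact Submodule.add_mem_sup (ih y hy) (k2 n g z hz)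
  have mono : Monotone F := monotone_nat_of_le_succ fun n => Fs n ▸ le_sup_left
  obtain ⟨Q, hQ⟩ : ∃ Q : ℕ → H →L[ℂ] H, ∀ n, Q n = (F n).starProjection := ⟨_, fun _ => rfl⟩
  have q1 (n) : star (Q n) = Q n := hQ n ▸ isSelfAdjoint_starProjection _
  have q2 (n x) : Q n x ∈ F n := hQ n ▸ Submodule.starProjection_apply_mem _ _
  have q3 (n x) (h : x ∈ F n) : Q n x = x := hQ n ▸ Submodule.starProjection_eq_self_iff.2 h
  have q4 {a b} (h : a ≤ b) : Q b * Q a = Q a := by
    ext x; exact q3 _ _ (mono h (q2 _ _))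
  have q5 {a b} (h : a ≤ b) : Q a * Q b = Q a := by simpa [q1] using congrArg star (q4 h)
  have q6 (n g) : Commute (l g) (Q n) := by
    have e (g) : Q n * (l g * Q n) = l g * Q n := by
      ext x; exact q3 _ _ (inv n g _ (q2 _ _))
    have := congrArg star (e g⁻¹)
    simp only [star_mul, q1, hs, inv_inv, mul_assoc] at this
    exact (e g).symm.trans this
  have o {i j} (h : i < j) : (Q (i + 1) - Q i) * (Q (j + 1) - Q j) = 0 := by
    rw [mul_sub, sub_mul, sub_mul, q5 (by omega), q5 (by omega), q5 (by omega), q5 (by omega),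
      sub_self]
  refine ⟨⟨fun n => r ^ n * s, fun k => Q (k + 1) - Q k, fun k => Module.finrank ℂ (F (k + 1)),
    fun k i => Module.finBasis ℂ (F (k + 1)) i, pow_orth h1 h2 h3, ?_, fun k => ⟨?_, ?_⟩,
    fun i j h => ?_, ?_, fun a h => ?_, fun j k a h => ?_⟩⟩
  · rintro _ ⟨g, rfl⟩ n
    exact ((cr g).pow_right n).mul_right (cs g)
  · rw [IsIdempotentElem, mul_sub, sub_mul, sub_mul, q5 le_rfl, q5 k.le_succ, q4 k.le_succ,
      q5 le_rfl, sub_self, sub_zero]
  · rw [IsSelfAdjoint, star_sub, q1, q1]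
  · rcases lt_or_gt_of_ne h with h | h
    · exact o h
    · simpa [q1] using congrArg star (o h)
  · rintro _ ⟨g, rfl⟩ n
    exact (q6 _ g).sub_right (q6 _ g)
  · have e (n) : a * Q n = 0 := by
      induction n with
      | zero => ext x; have := q2 0 x; rw [F0, Submodule.mem_bot] at this; simp [this]
      | succ n ih => simpa [mul_sub, ih] using h n
    refine DFunLike.coe_injective (hξ'.equalizer a.continuous (by fun_prop) (funext fun n => ?_))
    have := congrArg (· (ξ n)) (e (n + 1))
    simpa [q3 (n + 1) _ (Fs n ▸ Submodule.mem_sup_right (k3 n))] using this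
  · have m (k x) : (Q (k + 1) - Q k) x ∈ F (k + 1) := sub_mem (q2 _ _) (mono k.le_succ (q2 _ _))
    have e (x : F (j + 1)) (y : F (k + 1)) : inner ℂ (x : H) (a y) = 0 := by
      rw [← (Module.finBasis ℂ _).sum_repr x, ← (Module.finBasis ℂ _).sum_repr y]
      simp only [Submodule.coe_sum, Submodule.coe_smul, map_sum, map_smul, sum_inner, inner_sum,
        inner_smul_left, inner_smul_right, h, mul_zero, Finset.sum_const_zero]
    ext x
    refine ext_inner_left ℂ fun y => ?_
    have := e ⟨_, m j y⟩ ⟨_, m k x⟩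
    rw [← mul_apply_eq_comp, inner_star, star_sub, q1, q1, ← mul_assoc] at this
    rw [this, zero_apply, inner_zero_right]

end Pool.Agent.H.MP_3c1a79_gt
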