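import Mathlib
import Pool.Agent.H.MP_3c1a79_gt.Thin

set_option autoImplicit false

namespace Pool.Agent.H.MP_3c1a79_gt

open Filter Topology Function Set

lemma psi {X ι : Type*} [TopologicalSpace X] (φ : PartitionOfUnity ι X univ) :
    ∃ ψ : Finset ι → X → ℝ, (∀ σ, Continuous (ψ σ)) ∧ (LocallyFinite fun σ => support (ψ σ)) ∧
      ∀ x, ∃ A : Finset (Finset ι), (∀ σ, ψ σ x ≠ 0 → σ ∈ A) ∧ ∑ σ ∈ A, ψ σ x ^ 2 = 1 ∧
        ∃ i, φ i x ≠ 0 ∧ ∀ σ ∈ A, i ∈ σ ∧ ∀ τ ∈ A, σ ⊆ τ ∨ τ ⊆ σ := by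
  classical
  let p : Finset ι → X → ℝ := fun σ x =>
    (∑ j ∈ σ, φ j x) * ∏ i ∈ σ, max 0 (φ i x - 1 + ∑ j ∈ σ, φ j x)
  have pc (σ) : Continuous (p σ) := by fun_prop
  have le1 (σ : Finset ι) (x) : ∑ j ∈ σ, φ j x ≤ 1 := by
    rw [← φ.sum_finsupport' (mem_univ x) (Finset.subset_union_right (s₁ := σ))]
    exact Finset.sum_le_sum_of_subset_of_nonneg Finset.subset_union_left fun j _ _ => φ.nonneg j x
  have a0 {σ x} (h : p σ x ≠ 0) (i) (hi : i ∈ σ) : 1 - ∑ j ∈ σ, φ j x < φ i x := by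
    have := Finset.prod_ne_zero_iff.1 (right_ne_zero_of_mul h) i hi
    by_contra! k
    exact this (max_eq_left (by linarith))
  have a1 {σ x} (h : p σ x ≠ 0) (i) (hi : i ∈ σ) : φ i x ≠ 0 := by
    have := a0 h i hi
    have := le1 σ x
    exact ne_of_gt (by linarith)
  have a2 {σ x} (h : p σ x ≠ 0) (i) (hi : i ∈ σ) (j) (hj : j ∉ σ) : φ j x < φ i x := by
    have := a0 h i hi
    have := le1 (insert j σ) x
    rw [Finset.sum_insert hj] at this
    linarith
  have a3 (x) : p (φ.finsupport x) x ≠ 0 := by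
    simp only [p, φ.sum_finsupport (mem_univ x), one_mul, sub_add_cancel]
    refine Finset.prod_ne_zero_iff.2 fun i hi => ?_
    rw [max_eq_right (φ.nonneg i x)]
    simpa using hi
  have lf : LocallyFinite fun σ => support (p σ) := fun x => by
    obtain ⟨t, ht, hf⟩ := φ.locallyFinite x
    refine ⟨t, ht, (hf.toFinset.powerset.finite_toSet).subset ?_⟩
    rintro σ ⟨y, h1, h2⟩
    simp only [Finset.coe_powerset, Finite.coe_toFinset, mem_preimage, mem_powerset_iff]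
    exact fun i hi => ⟨y, a1 h1 i hi, h2⟩
  let n : X → ℝ := fun x => ∑ᶠ σ, p σ x ^ 2
  have nc : Continuous n := continuous_finsum (fun σ => (pc σ).pow 2)
    (lf.subset fun σ x h => by simpa using h)
  let A : X → Finset (Finset ι) := fun x => (lf.point_finite x).toFinset
  have hA (x σ) : σ ∈ A x ↔ p σ x ≠ 0 := by simp [A]
  have hn (x) : n x = ∑ σ ∈ A x, p σ x ^ 2 :=
    finsum_eq_sum_of_support_subset _ fun σ h => by simpa [hA] using h
  have n0 (x) : 0 < n x := by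
    rw [hn]
    exact Finset.sum_pos' (fun _ _ => sq_nonneg _) ⟨_, (hA x _).2 (a3 x), pow_pos_of_ne (a3 x)⟩
  refine ⟨fun σ x => p σ x / √(n x), fun σ => (pc σ).div nc.sqrt fun x =>
    (Real.sqrt_pos.2 (n0 x)).ne', lf.subset fun σ x h => ?_, fun x =>
    ⟨A x, fun σ h => (hA x σ).2 fun k => h (by simp [k]), ?_, ?_⟩⟩
  · exact fun k => h (by simp [k])
  · simp only [div_pow, Real.sq_sqrt (n0 x).le]
    rw [← Finset.sum_div, ← hn, div_self (n0 x).ne']
  · obtain ⟨i₀, h₀⟩ := φ.exists_pos (mem_univ x)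
    obtain ⟨i, hi, hm⟩ := (φ.finsupport x).exists_max_image (fun i => φ i x)
      ⟨i₀, by simpa using h₀.ne'⟩
    refine ⟨i, by simpa using hi, fun σ hσ => ⟨?_, fun τ hτ => ?_⟩⟩
    · rw [hA] at hσ
      by_contra k
      obtain ⟨j, hj, -⟩ := Finset.exists_ne_zero_of_sum_ne_zero (left_ne_zero_of_mul hσ)
      exact (a2 hσ j hj i k).not_ge (hm j (by simpa using a1 hσ j hj))
    · rw [hA] at hσ hτ
      by_contra! k
      obtain ⟨a, ha, ha'⟩ := Finset.not_subset.1 k.1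
      obtain ⟨b, hb, hb'⟩ := Finset.not_subset.1 k.2
      exact (a2 hσ a ha b hb').not_gt (a2 hτ b hb a ha')
where
  pow_pos_of_ne {a : ℝ} (h : a ≠ 0) : 0 < a ^ 2 := by positivity

variable {H : Type*} [NormedAddCommGroup H] [InnerProductSpace ℂ H] [CompleteSpace H]

lemma Frame.select {Γ : Set (H →L[ℂ] H)} (F : Frame Γ) {X ι : Type*} [TopologicalSpace X]
    (φ : PartitionOfUnity ι X univ) (u : ι → H →L[ℂ] H) :
    ∃ U : Bool → X → H →L[ℂ] H, (∀ b, Continuous (U b)) ∧ (∀ b x, star (U b x) * U b x = 1) ∧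
      (∀ b x, ∀ g ∈ Γ, Commute g (U b x)) ∧ ∀ x, star (U true x) * U false x = 0 ∧
        ∃ i, φ i x ≠ 0 ∧ star (U true x) * u i * U false x = 0 := by
  obtain ⟨V, v1, v2, v3⟩ := F.family u
  obtain ⟨ψ, c, lf, h⟩ := psi φ
  choose A a1 a2 i a3 a4 using h
  let U : Bool → X → H →L[ℂ] H := fun b x => ∑ᶠ σ, ψ σ x • V (σ, b)
  have hU (b x) : U b x = ∑ σ ∈ A x, ψ σ x • V (σ, b) :=
    finsum_eq_sum_of_support_subset _ fun σ h => a1 x σ (left_ne_zero_of_smul h)
  have e (b b' x y) : star (U b x) * y * U b' x =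
      ∑ σ ∈ A x, ∑ τ ∈ A x, (ψ σ x * ψ τ x) • (star (V (σ, b)) * y * V (τ, b')) := by
    simp only [hU, star_sum, star_smul, Finset.sum_mul, Finset.mul_sum, smul_mul_assoc,
      mul_smul_comm, Finset.smul_sum, smul_smul, star_trivial]
    rw [Finset.sum_comm]
    simp only [mul_comm]
  refine ⟨U, fun b => continuous_finsum (fun σ => (c σ).smul continuous_const)
    (lf.subset fun σ x h => left_ne_zero_of_smul h), fun b x => ?_, fun b x g hg => ?_,
    fun x => ⟨?_, i x, a3 x, ?_⟩⟩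
  · have := e b b x 1
    simp only [mul_one] at this
    rw [this, ← one_smul ℝ (1 : H →L[ℂ] H), ← a2 x, Finset.sum_smul]
    refine Finset.sum_congr rfl fun σ hσ => ?_
    rw [Finset.sum_eq_single σ (fun τ hτ k => ?_) (fun k => (k hσ).elim), v1, sq]
    rw [(v3 (σ, b) (τ, b) (by simpa using k.symm) ((a4 x σ hσ).2 τ hτ)).1, smul_zero]
  · rw [hU]
    exact Commute.sum_right _ _ _ fun σ _ => (v2 _ g hg).smul_right _
  · have := e true false x 1
    simp only [mul_one] at this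
    rw [this]
    refine Finset.sum_eq_zero fun σ hσ => Finset.sum_eq_zero fun τ hτ => ?_
    rw [(v3 (σ, true) (τ, false) (by simp) ((a4 x σ hσ).2 τ hτ)).1, smul_zero]
  · rw [e]
    refine Finset.sum_eq_zero fun σ hσ => Finset.sum_eq_zero fun τ hτ => ?_
    rw [(v3 (σ, true) (τ, false) (by simp) ((a4 x σ hσ).2 τ hτ)).2 _ (a4 x σ hσ).1 (a4 x τ hτ).1,
      smul_zero]

end Pool.Agent.H.MP_3c1a79_gt
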