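import Mathlib
import Pool.Agent.H.MP_3c1a79_gt.PW
import Pool.Agent.H.MP_3c1a79_gt.Sel

set_option autoImplicit false

namespace Pool.Agent.H.MP_3c1a79_gt

open Filter Topology Function Set

variable {H : Type*} [NormedAddCommGroup H] [InnerProductSpace ℂ H] [CompleteSpace H]
  {G : Type*} [Group G] (l : G →* H →L[ℂ] H)

/-- Conjugation as a ring homomorphism. -/
def cj (g : G) : (H →L[ℂ] H) →+* (H →L[ℂ] H) where
  toFun x := l g * x * l g⁻¹
  map_one' := by rw [mul_one, ← map_mul, mul_inv_cancel, map_one]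
  map_mul' x y := by
    simp only [mul_assoc]
    rw [← mul_assoc (l g⁻¹), ← map_mul, inv_mul_cancel, map_one, one_mul]
  map_zero' := by simp
  map_add' x y := by rw [mul_add, add_mul]

omit [CompleteSpace H] in
lemma cj_apply (g : G) (x : H →L[ℂ] H) : cj l g x = l g * x * l g⁻¹ := rfl

omit [CompleteSpace H] in
lemma cj_cj (g h : G) (x : H →L[ℂ] H) : cj l g (cj l h x) = cj l (g * h) x := by
  simp [cj_apply, mul_assoc]

omit [CompleteSpace H] in
lemma cj_one (x : H →L[ℂ] H) : cj l 1 x = x := by simp [cj_apply]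

omit [CompleteSpace H] in
lemma cj_smul (g : G) (t : ℝ) (x : H →L[ℂ] H) : cj l g (t • x) = t • cj l g x := by
  simp [cj_apply]

omit [CompleteSpace H] in
lemma cj_fix {g : G} {x : H →L[ℂ] H} (h : Commute (l g) x) : cj l g x = x := by
  rw [cj_apply, h.eq, mul_assoc, ← map_mul, mul_inv_cancel, map_one, mul_one]

/-- The action on invertible operators. -/
def act (g : G) (x : {x : H →L[ℂ] H // IsUnit x}) : {x : H →L[ℂ] H // IsUnit x} :=
  ⟨cj l g x.1, x.2.map _⟩

/-- Continuous equivariant maps. -/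
def Eqv : Subring C({x : H →L[ℂ] H // IsUnit x}, H →L[ℂ] H) where
  carrier := {f | ∀ g x, f (act l g x) = cj l g (f x)}
  mul_mem' ha hb g x := by simp [ha g x, hb g x]
  one_mem' g x := by simp
  add_mem' ha hb g x := by simp [ha g x, hb g x]
  zero_mem' g x := by simp
  neg_mem' ha g x := by simp [ha g x]

/-- Equivariant homotopy through invertible operators. -/
def Rel (a b : Eqv l) : Prop :=
  ContinuousMap.HomotopicWith a.1 b.1 fun f => (∀ x, IsUnit (f x)) ∧ f ∈ Eqv l

lemma rel_line (a b : Eqv l) (h : ∀ t : ℝ, 0 ≤ t → t ≤ 1 → ∀ x, IsUnit (a.1 x + t • b.1 x)) :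
    Rel l a (a + b) :=
  ⟨{ toFun := fun p => a.1 p.2 + (p.1 : ℝ) • b.1 p.2
     map_zero_left := fun x => by simp
     map_one_left := fun x => by simp
     prop' := fun t => ⟨fun x => h t t.2.1 t.2.2 x, fun g x => by
       simp [a.2 g x, b.2 g x, cj_smul]⟩ }⟩

lemma good : Good (Rel l) where
  refl a ha := ContinuousMap.HomotopicWith.refl _ ⟨fun x => ha.map
    ((Pi.evalRingHom _ x).comp (ContinuousMap.coeFnRingHom.comp (Eqv l).subtype)), a.2⟩
  symm h := ContinuousMap.HomotopicWith.symm h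
  trans h k := ContinuousMap.HomotopicWith.trans h k
  mul := fun ⟨F⟩ ⟨K⟩ =>
    ⟨{ toFun := fun p => F p * K p
       map_zero_left := fun x => by simp
       map_one_left := fun x => by simp
       prop' := fun t => ⟨fun x => ((F.prop t).1 x).mul ((K.prop t).1 x),
         (Eqv l).mul_mem (F.prop t).2 (K.prop t).2⟩ }⟩
  elem n hn := ContinuousMap.HomotopicWith.symm (rel_line l 1 n fun t _ _ x => unit_nil (by
    have : n.1 x * n.1 x = 0 := congrArg (fun f : Eqv l => f.1 x) hn
    simp [this]))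

lemma unit_eqv (a : Eqv l) (h : ∀ x, IsUnit (a.1 x)) : IsUnit a := by
  let b : Eqv l := ⟨⟨fun x => Ring.inverse (a.1 x), continuous_iff_continuousAt.2 fun x =>
    (NormedRing.inverse_continuousAt (h x).unit).comp_of_eq a.1.continuous.continuousAt rfl⟩,
    fun g x => left_inv_eq_right_inv (Ring.inverse_mul_cancel _ (h _)) (by
      change _ * cj l g (Ring.inverse (a.1 x)) = 1
      rw [a.2 g x, ← map_mul, Ring.mul_inverse_cancel _ (h _), map_one])⟩
  exact ⟨⟨a, b, Subtype.ext (ContinuousMap.ext fun x => Ring.mul_inverse_cancel _ (h x)),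
    Subtype.ext (ContinuousMap.ext fun x => Ring.inverse_mul_cancel _ (h x))⟩, rfl⟩

variable {l}

lemma cj_star (hs : ∀ g, star (l g) = l g⁻¹) (g : G) (x : H →L[ℂ] H) :
    cj l g (star x) = star (cj l g x) := by
  simp [cj_apply, hs, mul_assoc]

lemma cj_norm (hs : ∀ g, star (l g) = l g⁻¹) (g : G) (x : H →L[ℂ] H) : ‖cj l g x‖ ≤ ‖x‖ := by
  have h (g) : ‖l g‖ ≤ 1 := norm_iso (by rw [hs, ← map_mul, inv_mul_cancel, map_one])
  have h1 := h g
  have h2 := h g⁻¹
  calc _ ≤ ‖l g‖ * ‖x‖ * ‖l g⁻¹‖ := (norm_mul_le _ _).trans (by gcongr; exact norm_mul_le _ _)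
    _ ≤ 1 * ‖x‖ * 1 := by gcongr
    _ = ‖x‖ := by ring

/-- Invertible operators with the Hausdorff distance of orbits. -/
def Orb (_ : G →* H →L[ℂ] H) : Type _ := {x : H →L[ℂ] H // IsUnit x}

noncomputable instance : PseudoEMetricSpace (Orb l) where
  edist x y := Metric.hausdorffEDist (range (cj l · x.1)) (range (cj l · y.1))
  edist_self _ := Metric.hausdorffEDist_self
  edist_comm _ _ := Metric.hausdorffEDist_comm
  edist_triangle _ _ _ := Metric.hausdorffEDist_triangle

lemma select (hs : ∀ g, star (l g) = l g⁻¹) (F : Frame (range l)) :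
    ∃ U : Bool → C({x : H →L[ℂ] H // IsUnit x}, H →L[ℂ] H), (∀ b, U b ∈ Eqv l) ∧
      (∀ b x, star (U b x) * U b x = 1) ∧ (∀ x, star (U true x) * U false x = 0) ∧
      ∀ t : ℝ, 0 ≤ t → t ≤ 1 → ∀ x, IsUnit (x.1 + t •
        -(U true x * star (U true x) * x.1 * (U false x * star (U false x)))) := by
  have ex (u : Orb l) : ∃ ρ > 0, Metric.ball u.1 ρ ⊆ {x | IsUnit x} :=
    Metric.isOpen_iff.1 Units.isOpen u.1 u.2
  choose ρ ρ0 hρ using ex
  obtain ⟨φ, hφ⟩ := PartitionOfUnity.exists_isSubordinate isClosed_univ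
    (fun u : Orb l => Metric.eball u (ENNReal.ofReal (ρ u / 2))) (fun _ => Metric.isOpen_eball)
    fun u _ => mem_iUnion.2 ⟨u, Metric.mem_eball_self (by simpa using ρ0 u)⟩
  obtain ⟨U, u1, u2, u3, u4⟩ := F.select φ fun u => u.1
  let o : {x : H →L[ℂ] H // IsUnit x} → Orb l := fun x => x
  have ed (g) (x y : H →L[ℂ] H) : edist (cj l g x) (cj l g y) ≤ edist x y := by
    rw [edist_dist, edist_dist, dist_eq_norm, dist_eq_norm, ← map_sub]
    exact ENNReal.ofReal_le_ofReal (cj_norm hs _ _)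
  have oc : Continuous o := LipschitzWith.continuous (K := 1) fun x y => by
    rw [ENNReal.coe_one, one_mul]
    refine Metric.hausdorffEDist_le_of_mem_edist ?_ ?_
    · rintro _ ⟨g, rfl⟩
      exact ⟨_, ⟨g, rfl⟩, ed g _ _⟩
    · rintro _ ⟨g, rfl⟩
      exact ⟨_, ⟨g, rfl⟩, edist_comm x y ▸ ed g _ _⟩
  have inv (b g x) : U b (o (act l g x)) = U b (o x) := by
    refine (Inseparable.map (EMetric.inseparable_iff.2 ?_) (u1 b)).eq
    have : range (cj l · (act l g x).1) = range (cj l · x.1) := by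
      ext y
      constructor
      · rintro ⟨h, rfl⟩
        exact ⟨h * g, (cj_cj l h g _).symm⟩
      · rintro ⟨h, rfl⟩
        exact ⟨h * g⁻¹, (cj_cj l _ g _).trans (by simp)⟩
    change Metric.hausdorffEDist (range (cj l · (act l g x).1)) (range (cj l · x.1)) = 0
    rw [this, Metric.hausdorffEDist_self]
  have fx (b x g) : cj l g (U b x) = U b x := cj_fix l (u3 b x _ ⟨g, rfl⟩)
  refine ⟨fun b => ⟨fun x => U b (o x), (u1 b).comp oc⟩, fun b g x => (inv b g x).trans
    (fx _ _ _).symm, fun b x => u2 b _, fun x => (u4 _).1, fun t t0 t1 x => ?_⟩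
  obtain ⟨u, h1, h2⟩ := (u4 (o x)).2
  have h3 : Metric.hausdorffEDist (range (cj l · u.1)) (range (cj l · x.1)) <
      ENNReal.ofReal (ρ u / 2) := Metric.mem_eball'.1 (hφ u (subset_tsupport _ h1))
  obtain ⟨_, ⟨g, rfl⟩, h4⟩ := Metric.exists_edist_lt_of_hausdorffEDist_lt (x := u.1)
    (s := range (cj l · u.1)) ⟨1, cj_one l _⟩ h3
  rw [edist_lt_ofReal, dist_comm, dist_eq_norm] at h4
  simp only [ContinuousMap.coe_mk]
  set V := U false (o x)
  set W := U true (o x)
  have pn (b) : ‖U b (o x) * star (U b (o x))‖ ≤ 1 := (norm_mul_le _ _).trans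
    (mul_le_one₀ (norm_iso (u2 _ _)) (norm_nonneg _) (by rw [norm_star]; exact norm_iso (u2 _ _)))
  rw [← cj_one l (_ + _), ← inv_mul_cancel g, ← cj_cj]
  refine IsUnit.map _ (hρ u ?_)
  rw [mem_ball_iff_norm, map_add, cj_smul, map_neg]
  simp only [map_mul, cj_star hs, V, W, fx]
  set e := cj l g x.1 - u.1 with he
  have : cj l g x.1 + t • -(W * star W * cj l g x.1 * (V * star V)) - u.1 =
      e - t • (W * star W * e * (V * star V)) := by
    have : W * star W * u.1 * (V * star V) = W * (star W * u.1 * V) * star V := by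
      simp only [mul_assoc]
    rw [he, mul_sub, sub_mul, this, h2, mul_zero, zero_mul, sub_zero, smul_neg]
    abel
  rw [this]
  have p1 := pn true
  have p2 := pn false
  calc _ ≤ ‖e‖ + ‖t • (W * star W * e * (V * star V))‖ := norm_sub_le _ _
    _ ≤ ‖e‖ + 1 * (1 * ‖e‖ * 1) := by
      rw [norm_smul, Real.norm_of_nonneg t0]
      gcongr
      exact (norm_mul_le _ _).trans (mul_le_mul ((norm_mul_le _ _).trans (by gcongr)) p2
        (norm_nonneg _) (by positivity))
    _ < ρ u := by linarith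

lemma kill {A : Type*} [Ring A] {x v v' w w' : A} (hv : v' * v = 1) (hw : w' * w = 1) :
    w' * (x + -(w * w' * x * (v * v'))) * v = 0 := by
  have : w' * (x + -(w * w' * x * (v * v'))) * v =
    w' * x * v - (w' * w) * w' * x * v * (v' * v) := by noncomm_ring
  rw [this, hv, hw, one_mul, mul_one, sub_self]

theorem gl_contr (hs : ∀ g, star (l g) = l g⁻¹) (F : Frame (range l)) :
    ∃ h : C(unitInterval × {x : H →L[ℂ] H // IsUnit x}, H →L[ℂ] H), (∀ x, h (0, x) = x.1) ∧
      (∀ x, h (1, x) = 1) ∧ (∀ p, IsUnit (h p)) ∧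
      ∀ t g x, h (t, act l g x) = cj l g (h (t, x)) := by
  obtain ⟨U, u1, u2, u3, u4⟩ := select hs F
  obtain ⟨D, S, Dc, De⟩ := swindle (s := F.S 0) (r := F.S 1) (by simp [F.hS]) (by simp [F.hS])
    (by simp [F.hS])
  let st : Eqv l → Eqv l := fun a => ⟨star a.1, fun g x => by simp [a.2 g x, cj_star hs]⟩
  let k : ℕ → Eqv l := fun n => ⟨ContinuousMap.const _ (F.S n), fun g x =>
    (cj_fix l (F.cS _ ⟨g, rfl⟩ n)).symm⟩
  let D' : Eqv l → Eqv l := fun a => ⟨⟨fun x => D (a.1 x), Dc.comp a.1.continuous⟩, fun g x => by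
    simp only [ContinuousMap.coe_mk, a.2 g x, cj_apply, ← hs]
    exact De _ (F.cS _ ⟨g, rfl⟩ 0) (F.cS _ ⟨g, rfl⟩ 1) _⟩
  have ext {a b : Eqv l} (h : ∀ x, a.1 x = b.1 x) : a = b := Subtype.ext (ContinuousMap.ext h)
  have S' : Swindle (k 0) (st (k 0)) (k 1) (st (k 1)) D' :=
    ⟨ext fun _ => S.ss, ext fun _ => S.rr, ext fun _ => S.sr, ext fun _ => S.rs,
      fun y => ext fun x => S.fix _, fun y z => ext fun x => S.mul _ _,
      fun y z => ext fun x => S.add _ _⟩
  let i : Eqv l := ⟨⟨Subtype.val, continuous_subtype_val⟩, fun _ _ => rfl⟩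
  let V : Eqv l := ⟨U false, u1 _⟩
  let W : Eqv l := ⟨U true, u1 _⟩
  have hV : st V * V = 1 := ext fun x => u2 _ x
  have hW : st W * W = 1 := ext fun x => u2 _ x
  have r1 := rel_line l i (-(W * st W * i * (V * st V))) u4
  have r2 : Rel l (i + -(W * st W * i * (V * st V))) 1 := (good l).main S' (unit_eqv l _ fun x => by
      have := u4 1 zero_le_one le_rfl x
      rwa [one_smul] at this) hV hW
    (ext fun x => by
      have := congrArg star (u3 x)
      rwa [star_mul, star_star, star_zero] at this) (ext u3) (kill hV hW)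
  obtain ⟨h⟩ := (good l).trans r1 r2
  exact ⟨h.toContinuousMap, h.apply_zero, h.apply_one, fun p => (h.prop p.1).1 p.2,
    fun t => (h.prop t).2⟩

end Pool.Agent.H.MP_3c1a79_gt
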