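import Mathlib
import Pool.Agent.H.MP_3c1a79_gt.Main

set_option autoImplicit false

namespace Pool.Agent.H.MP_3c1a79_gt

open Filter Topology Function Set MeasureTheory

section polar

variable {H : Type*} [NormedAddCommGroup H] [InnerProductSpace ℂ H] [CompleteSpace H]
  {G : Type*} [Group G] {l : G →* H →L[ℂ] H}

/-- The unitary part of an invertible operator. -/
noncomputable def pol (y : H →L[ℂ] H) : H →L[ℂ] H := y * Ring.inverse (CFC.sqrt (star y * y))

lemma sqrt_unit {y : H →L[ℂ] H} (hy : IsUnit y) : IsUnit (CFC.sqrt (star y * y)) :=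
  (CFC.isUnit_sqrt_iff _ (star_mul_self_nonneg y)).2 (hy.star.mul hy)

lemma pol_mem {y : H →L[ℂ] H} (hy : IsUnit y) : pol y ∈ unitary (H →L[ℂ] H) := by
  have h := sqrt_unit hy
  refine (hy.mul (isUnit_ringInverse.2 h)).mem_unitary_of_star_mul_self ?_
  rw [star_mul, ← Ring.inverse_star, (CFC.sqrt_nonneg _).isSelfAdjoint.star_eq, mul_assoc,
    ← mul_assoc (star y)]
  nth_rewrite 2 [← CFC.sqrt_mul_sqrt_self (star y * y) (star_mul_self_nonneg y)]
  rw [mul_assoc, Ring.mul_inverse_cancel _ h, mul_one, Ring.inverse_mul_cancel _ h]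

lemma pol_unitary {y : H →L[ℂ] H} (hy : y ∈ unitary (H →L[ℂ] H)) : pol y = y := by
  rw [pol, hy.1, CFC.sqrt_one, Ring.inverse_one, mul_one]

lemma pol_cont {X : Type*} [TopologicalSpace X] {f : X → H →L[ℂ] H} (hf : Continuous f)
    (h : ∀ x, IsUnit (f x)) : Continuous fun x => pol (f x) := by
  have c : Continuous fun x => CFC.sqrt (star (f x) * f x) :=
    CFC.continuousOn_sqrt.comp_continuous (hf.star.mul hf) fun x => star_mul_self_nonneg (f x)
  exact hf.mul (continuous_iff_continuousAt.2 fun x =>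
    (NormedRing.inverse_continuousAt (sqrt_unit (h x)).unit).comp_of_eq c.continuousAt rfl)

lemma pol_cj (hs : ∀ g, star (l g) = l g⁻¹) (g : G) {y : H →L[ℂ] H} (hy : IsUnit y) :
    pol (cj l g y) = cj l g (pol y) := by
  have e : CFC.sqrt (star (cj l g y) * cj l g y) = cj l g (CFC.sqrt (star y * y)) := by
    refine CFC.sqrt_unique ?_ ?_
    · rw [← map_mul, CFC.sqrt_mul_sqrt_self _ (star_mul_self_nonneg y), map_mul, cj_star hs]
    · rw [cj_apply, ← hs]
      exact star_right_conjugate_nonneg (CFC.sqrt_nonneg _) _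
  rw [pol, pol, map_mul, e]
  congr 1
  refine left_inv_eq_right_inv (Ring.inverse_mul_cancel _ ((sqrt_unit hy).map _)) ?_
  rw [← map_mul, Ring.mul_inverse_cancel _ (sqrt_unit hy), map_one]

/-- Equivariant contractibility of a set of operators under conjugation. -/
def Contr (π : G → H →L[ℂ] H) (Y : Set (H →L[ℂ] H)) : Prop :=
  ∃ (y₀ : Y) (h : C(unitInterval × Y, Y)), (∀ g, π g * y₀ * star (π g) = y₀) ∧
    (∀ y, h (0, y) = y) ∧ (∀ y, h (1, y) = y₀) ∧
    ∀ t g (y z : Y), (z : H →L[ℂ] H) = π g * y * star (π g) →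
      (h (t, z) : H →L[ℂ] H) = π g * h (t, y) * star (π g)

theorem both (hs : ∀ g, star (l g) = l g⁻¹) (F : Frame (range l)) :
    Contr l (unitary (H →L[ℂ] H)) ∧ Contr l {x | IsUnit x} := by
  obtain ⟨h, h0, h1, h2, h3⟩ := gl_contr hs F
  have e1 (g) : l g * 1 * star (l g) = 1 := by rw [hs]; exact (cj l g).map_one
  constructor
  · let j : (unitary (H →L[ℂ] H) : Set (H →L[ℂ] H)) → {x : H →L[ℂ] H // IsUnit x} :=
      fun u => ⟨u.1, Unitary.isUnit_coe (U := ⟨u.1, u.2⟩)⟩
    have jc : Continuous j := continuous_subtype_val.subtype_mk _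
    refine ⟨⟨1, one_mem _⟩, ⟨fun p => ⟨pol (h (p.1, j p.2)), pol_mem (h2 _)⟩,
      (pol_cont (by fun_prop) fun _ => h2 _).subtype_mk _⟩, e1, fun y => Subtype.ext ?_,
      fun y => Subtype.ext ?_, fun t g y z e => ?_⟩
    · exact (congrArg pol (h0 _)).trans (pol_unitary y.2)
    · exact (congrArg pol (h1 _)).trans (pol_unitary (one_mem _))
    · rw [hs] at e ⊢
      have : j z = act l g (j y) := Subtype.ext e
      change pol (h (t, j z)) = cj l g (pol (h (t, j y)))
      rw [this, h3, pol_cj hs g (h2 _)]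
  · refine ⟨⟨1, isUnit_one⟩, ⟨fun p => ⟨h p, h2 _⟩, h.continuous.subtype_mk _⟩, e1,
      fun y => Subtype.ext (h0 y), fun y => Subtype.ext (h1 y), fun t g y z e => ?_⟩
    rw [hs] at e ⊢
    have : z = act l g y := Subtype.ext e
    rw [this]
    exact h3 t g y

end polar

lemma two_iso : ∃ s r : lp (fun _ : ℕ => ℂ) 2 →ₗᵢ[ℂ] lp (fun _ : ℕ => ℂ) 2,
    ∀ a b, inner ℂ (s a) (r b) = 0 := by
  let b : HilbertBasis ℕ ℂ (lp (fun _ : ℕ => ℂ) 2) := default
  have key {v : ℕ → lp (fun _ : ℕ => ℂ) 2} (hv : Orthonormal ℂ v) (y f)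
      (h : ∀ n, inner ℂ y (v n) = 0) : inner ℂ y (hv.orthogonalFamily.linearIsometry f) = 0 :=
    ((hv.orthogonalFamily.hasSum_linearIsometry f).mapL (innerSL ℂ y)).unique
      (by simp [h, hasSum_zero])
  have h1 := b.orthonormal.comp (fun n => 2 * n) fun _ _ h => by simpa using h
  have h2 := b.orthonormal.comp (fun n => 2 * n + 1) fun _ _ h => by simpa using h
  refine ⟨h1.orthogonalFamily.linearIsometry, h2.orthogonalFamily.linearIsometry, fun x y =>
    key h2 _ _ fun n => inner_eq_zero_symm.1 (key h1 _ _ fun m => b.orthonormal.2 ?_)⟩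
  dsimp only
  omega

lemma sep : TopologicalSpace.SeparableSpace (lp (fun _ : ℕ => ℂ) 2) := by
  let b : HilbertBasis ℕ ℂ (lp (fun _ : ℕ => ℂ) 2) := default
  rw [← TopologicalSpace.isSeparable_univ_iff]
  have := ((countable_range b).isSeparable.span (R := ℂ)).closure
  rwa [← Submodule.topologicalClosure_coe, b.dense_span] at this

theorem reg {G : Type*} [Group G] [TopologicalSpace G] [IsTopologicalGroup G] [CompactSpace G]
    [SecondCountableTopology G] [MeasurableSpace G] [BorelSpace G] (μ : Measure G)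
    [μ.IsHaarMeasure] {E : Type*} [NormedAddCommGroup E] [InnerProductSpace ℂ E] [CompleteSpace E]
    [TopologicalSpace.SeparableSpace E] (s r : E →ₗᵢ[ℂ] E) (hsr : ∀ a b, inner ℂ (s a) (r b) = 0) :
    ∃ l : G →* Lp E 2 μ →L[ℂ] Lp E 2 μ, (∀ g f, l g f =ᵐ[μ] fun x => f (g⁻¹ * x)) ∧
      (∀ g, star (l g) = l g⁻¹) ∧ Nonempty (Frame (range l)) := by
  let L : G → Lp E 2 μ →ₗᵢ[ℂ] Lp E 2 μ := fun x =>
    Lp.compMeasurePreservingₗᵢ ℂ (fun y => x⁻¹ • y) (measurePreserving_smul x⁻¹ μ)
  have la (x v) : L x v = DomMulAct.mk x⁻¹ • v := rfl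
  let l : G →* Lp E 2 μ →L[ℂ] Lp E 2 μ :=
    { toFun := fun g => (L g).toContinuousLinearMap
      map_one' := ContinuousLinearMap.ext fun v => by
        change L 1 v = v
        rw [la, inv_one]
        exact one_smul (DomMulAct G) v
      map_mul' := fun x y => ContinuousLinearMap.ext fun v => by
        change L (x * y) v = L x (L y v)
        rw [la, la, la, ← mul_smul, mul_inv_rev]
        rfl }
  have ae (g f) : l g f =ᵐ[μ] fun x => f (g⁻¹ * x) :=
    Lp.coeFn_compMeasurePreserving f (measurePreserving_smul g⁻¹ μ)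
  have st {a b : Lp E 2 μ →L[ℂ] Lp E 2 μ} {c : ℂ}
      (h : ∀ x y, inner ℂ (a x) (b y) = c * inner ℂ x y) : star a * b = c • 1 :=
    ContinuousLinearMap.ext fun y => ext_inner_left ℂ fun x => by
      rw [← inner_star, h, smul_apply, inner_smul_right, one_apply_eq_self]
  have hs (g) : star (l g) = l g⁻¹ := by
    have : star (l g) * l g = 1 := (st (c := 1) fun x y => by
      rw [one_mul]; exact (L g).inner_map_map x y).trans (one_smul _ _)
    exact left_inv_eq_right_inv this (by rw [← map_mul, mul_inv_cancel, map_one])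
  have lift (a b : E →L[ℂ] E) (c : ℂ) (h : ∀ x y, inner ℂ (a x) (b y) = c * inner ℂ x y) :
      star (a.compLpL 2 μ) * b.compLpL 2 μ = c • 1 := st fun x y => by
    rw [L2.inner_def, L2.inner_def, ← integral_const_mul]
    refine integral_congr_ae ?_
    filter_upwards [a.coeFn_compLpL x, b.coeFn_compLpL y] with t h1 h2
    rw [h1, h2, h]
  have cm (a : E →L[ℂ] E) (g) : Commute (l g) (a.compLpL 2 μ) :=
    ContinuousLinearMap.ext fun f => Lp.ext <| by
      filter_upwards [ae g (a.compLpL 2 μ f), a.coeFn_compLpL (l g f), ae g f,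
        (measurePreserving_smul g⁻¹ μ).quasiMeasurePreserving.ae (a.coeFn_compLpL f)]
        with t h1 h2 h3 h4
      exact h1.trans (h4.trans (h2.trans (congrArg a h3)).symm)
  have : Fact ((2 : ENNReal) ≠ ⊤) := ⟨by simp⟩
  refine ⟨l, ae, hs, frame l hs (fun v => continuous_const.compMeasurePreservingLp
      (ContinuousMap.curry ⟨fun p : G × G => p.1⁻¹ • p.2, by fun_prop⟩).continuous _ (by simp))
    ((lift s.toContinuousLinearMap _ 1 fun x y => by simp).trans (one_smul _ _))
    ((lift r.toContinuousLinearMap _ 1 fun x y => by simp).trans (one_smul _ _))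
    ((lift _ _ 0 fun x y => by simp [hsr]).trans (zero_smul _ _)) (cm _) (cm _)⟩

end Pool.Agent.H.MP_3c1a79_gt
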